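import Pool.Agent.LibTB10.F4

/-!
# MP_424b8c_al : a criterion for infinitely many bricks of one dimension (all finite-dimensional algebras)

`k` is an infinite field, `A` a finite-dimensional `k`-algebra with any number of simple modules, `P` and `Q` finitely
generated projective `A`-modules.  `f : P → Q` is rigid if `Hom(P,Q) = End(Q) f + f End(P)`, i.e. if the complex
`P → Q` is a 2-term presilting complex.

The theorem: if `Hom(P,Q)` contains no rigid element (the class `[Q] - [P]` is the class of no
2-term presilting complex of this shape), or if `Q ≠ 0` and `dim End P + dim End Q ≤ dim Hom(P,Q)`, then for some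
`d ≤ dim Q` there are infinitely many pairwise nonisomorphic bricks of dimension `d` over `A`.
-/

set_option autoImplicit false

universe u

namespace Pool.Agent.Results.MP_424b8c_al.Criterion

open Module

/-- the representation `ρ` on `k^d` is a brick: `d > 0` and every nonzero endomorphism is bijective -/
def BrickRep {k A : Type u} [Field k] [Ring A] [Algebra k A] {d : ℕ}
    (ρ : A →ₐ[k] Module.End k (Fin d → k)) : Prop :=
  0 < d ∧ ∀ T : (Fin d → k) →ₗ[k] (Fin d → k), (∀ a v, T (ρ a v) = ρ a (T v)) → T ≠ 0 →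
    Function.Bijective T

/-- the representations `ρ` on `k^d` and `σ` on `k^e` are isomorphic -/
def IsoRep {k A : Type u} [Field k] [Ring A] [Algebra k A] {d e : ℕ}
    (ρ : A →ₐ[k] Module.End k (Fin d → k)) (σ : A →ₐ[k] Module.End k (Fin e → k)) : Prop :=
  ∃ T : (Fin d → k) ≃ₗ[k] (Fin e → k), ∀ a v, T (ρ a v) = σ a (T v)

/-- `f : P → Q` is rigid: every homomorphism `P → Q` is `α f + f β` with `α ∈ End Q`, `β ∈ End P` -/
def Rigid {A P Q : Type u} [Ring A] [AddCommGroup P] [Module A P] [AddCommGroup Q] [Module A Q]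
    (f : P →ₗ[A] Q) : Prop :=
  ∀ h : P →ₗ[A] Q, ∃ (α : Q →ₗ[A] Q) (β : P →ₗ[A] P), α ∘ₗ f + f ∘ₗ β = h

theorem result (k : Type u) [Field k] [Infinite k] (A : Type u) [Ring A] [Algebra k A] [Module.Finite k A]
    (P : Type u) [AddCommGroup P] [Module A P] [Module k P] [IsScalarTower k A P]
    [Module.Finite A P] [Module.Projective A P]
    (Q : Type u) [AddCommGroup Q] [Module A Q] [Module k Q] [IsScalarTower k A Q]
    [Module.Finite A Q] [Module.Projective A Q]
    (h : (∀ f : P →ₗ[A] Q, ¬ Rigid f) ∨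
      (Nontrivial Q ∧
        finrank k (P →ₗ[A] P) + finrank k (Q →ₗ[A] Q) ≤ finrank k (P →ₗ[A] Q))) :
    ∃ d ≤ finrank k Q, ∃ X : ℕ → (A →ₐ[k] Module.End k (Fin d → k)),
      (∀ n, BrickRep (X n)) ∧ ∀ m n, m ≠ n → ¬ IsoRep (X m) (X n) := by
  have : Module.Finite k P := Module.Finite.trans A P
  have : Module.Finite k Q := Module.Finite.trans A Q
  have h' : ∀ f : P →ₗ[A] Q, ¬ TB10.Rigid f := by
    rcases h with h | ⟨hQ, h⟩
    · exact h
    · exact TB10.not_rigid_of_dim h
  obtain ⟨d, hd, hB⟩ := TB10.criterion k A P Q h'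
  exact ⟨d, hd, (TB10.infBricks_iff d).mpr hB⟩

end Pool.Agent.Results.MP_424b8c_al.Criterion
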