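import Pool.Agent.LibTB10.C1
import Pool.Agent.LibTB10.F3

/-!
# MP_424b8c_al : two-dimensional rational sections of the g-vector fan are finite, or Q1 holds

`k` is an infinite field, `A` a finite-dimensional `k`-algebra with any number of simple modules, `f : P → Q` and
`g : P' → Q'` homomorphisms of finitely generated projective modules which are rigid
(`f` is rigid if `Hom(P,Q) = End(Q) f + f End(P)`, i.e. if the complex `P → Q` is a 2-term presilting complex).
`e f g` is the dimension of `Hom(P,Q') / (Hom(Q,Q') f + g Hom(P,P'))`, the space of homomorphisms from the complex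
`f` to the complex `g[1]`.

The theorem: if for each `d ≤ 2 ^ (e f g + e g f) * (dim Q + dim Q')` there are not infinitely many bricks of
dimension `d` over `A`, then the plane sector between the classes of `f` and `g` is subdivided by finitely many
(at most `2 ^ (e f g + e g f) + 1`) rigid presentations `P^x ⊕ P'^y → Q^x ⊕ Q'^y`, any two consecutive ones
having a rigid direct sum and determinant one.
-/

set_option autoImplicit false

universe u

namespace Pool.Agent.Results.MP_424b8c_al.RationalPlanes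

open Module

/-- the representation `ρ` on `k^d` is a brick: `d > 0` and every nonzero endomorphism is bijective -/
def BrickRep {k A : Type u} [Field k] [Ring A] [Algebra k A] {d : ℕ}
    (ρ : A →ₐ[k] Module.End k (Fin d → k)) : Prop :=
  0 < d ∧ ∀ T : (Fin d → k) →ₗ[k] (Fin d → k), (∀ a v, T (ρ a v) = ρ a (T v)) → T ≠ 0 →
    Function.Bijective T

/-- the representations `ρ` on `k^d` and `σ` on `k^e` are isomorphic -/
def IsoRep {k A : Type u} [Field k] [Ring A] [Algebra k A] {d e : ℕ}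
    (ρ : A →ₐ[k] Module.End k (Fin d → k)) (σ : A →ₐ[k] Module.End k (Fin e → k)) : Prop :=
  ∃ T : (Fin d → k) ≃ₗ[k] (Fin e → k), ∀ a v, T (ρ a v) = σ a (T v)

/-- `E(f,g) = 0` for `f : P → Q`, `g : P' → Q'`: every homomorphism `P → Q'` is `α f + g β` with `α : Q → Q'`,
`β : P → P'` -/
def E0 {A P Q P' Q' : Type u} [Ring A] [AddCommGroup P] [Module A P] [AddCommGroup Q] [Module A Q]
    [AddCommGroup P'] [Module A P'] [AddCommGroup Q'] [Module A Q']
    (f : P →ₗ[A] Q) (g : P' →ₗ[A] Q') : Prop :=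
  ∀ h : P →ₗ[A] Q', ∃ (α : Q →ₗ[A] Q') (β : P →ₗ[A] P'), α ∘ₗ f + g ∘ₗ β = h

/-- `e(f,g) = dim_k Hom(P,Q') / (Hom(Q,Q') f + g Hom(P,P'))` for `f : P → Q`, `g : P' → Q'` -/
noncomputable def e (k : Type u) [Field k] {A P Q P' Q' : Type u} [Ring A] [Algebra k A]
    [AddCommGroup P] [Module A P] [AddCommGroup Q] [Module A Q] [AddCommGroup P'] [Module A P']
    [AddCommGroup Q'] [Module A Q'] [Module k Q'] [IsScalarTower k A Q']
    (f : P →ₗ[A] Q) (g : P' →ₗ[A] Q') : ℕ :=
  finrank k ((P →ₗ[A] Q') ⧸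
    Submodule.span k {h | ∃ (α : Q →ₗ[A] Q') (β : P →ₗ[A] P'), h = α ∘ₗ f + g ∘ₗ β})

/-- `P^x ⊕ P'^y` -/
def Pow (P P' : Type u) (x y : ℕ) : Type u := (Fin x → P) × (Fin y → P')

instance Pow.group (P P' : Type u) (x y : ℕ) [AddCommGroup P] [AddCommGroup P'] :
    AddCommGroup (Pow P P' x y) :=
  (inferInstance : AddCommGroup ((Fin x → P) × (Fin y → P')))

instance Pow.module (A P P' : Type u) (x y : ℕ) [Ring A] [AddCommGroup P] [AddCommGroup P']
    [Module A P] [Module A P'] : Module A (Pow P P' x y) :=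
  (inferInstance : Module A ((Fin x → P) × (Fin y → P')))

/-- a homomorphism `h : P^x ⊕ P'^y → Q^x ⊕ Q'^y` together with the numbers `x`, `y` -/
structure Node (A P Q P' Q' : Type u) [Ring A] [AddCommGroup P] [Module A P] [AddCommGroup Q]
    [Module A Q] [AddCommGroup P'] [Module A P'] [AddCommGroup Q'] [Module A Q'] where
  x : ℕ
  y : ℕ
  h : Pow P P' x y →ₗ[A] Pow Q Q' x y

/-- consecutive nodes: `E(c,d) = 0` for all `c, d ∈ {a.h, b.h}` (i.e. the direct sum `a.h ⊕ b.h` is rigid), and the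
determinant of the classes `(a.x, a.y)`, `(b.x, b.y)` is one -/
def Compat {A P Q P' Q' : Type u} [Ring A] [AddCommGroup P] [Module A P] [AddCommGroup Q]
    [Module A Q] [AddCommGroup P'] [Module A P'] [AddCommGroup Q'] [Module A Q']
    (a b : Node A P Q P' Q') : Prop :=
  E0 a.h a.h ∧ E0 a.h b.h ∧ E0 b.h a.h ∧ E0 b.h b.h ∧ a.x * b.y = b.x * a.y + 1

/-- for no `d ≤ D` are there infinitely many pairwise nonisomorphic bricks of dimension `d` over `A` -/
def FewBricks (k A : Type u) [Field k] [Ring A] [Algebra k A] (D : ℕ) : Prop :=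
  ∀ d ≤ D, ¬ ∃ X : ℕ → (A →ₐ[k] Module.End k (Fin d → k)),
    (∀ n, BrickRep (X n)) ∧ ∀ m n, m ≠ n → ¬ IsoRep (X m) (X n)

/-- there is a chain of at most `N + 1` nodes, consecutive ones satisfying `Compat`, from a node with `(x, y) = (1, 0)`
to a node with `(x, y) = (0, 1)` -/
def Linked (A P Q P' Q' : Type u) [Ring A] [AddCommGroup P] [Module A P] [AddCommGroup Q]
    [Module A Q] [AddCommGroup P'] [Module A P'] [AddCommGroup Q'] [Module A Q'] (N : ℕ) : Prop :=
  ∃ l : List (Node A P Q P' Q'), l.length ≤ N + 1 ∧ l.IsChain Compat ∧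
    (∃ a ∈ l.head?, a.x = 1 ∧ a.y = 0) ∧ (∃ b ∈ l.getLast?, b.x = 0 ∧ b.y = 1)

theorem e_eq {k : Type u} [Field k] {A P Q P' Q' : Type u} [Ring A] [Algebra k A]
    [AddCommGroup P] [Module A P] [AddCommGroup Q] [Module A Q]
    [AddCommGroup P'] [Module A P'] [Module k P'] [IsScalarTower k A P']
    [AddCommGroup Q'] [Module A Q'] [Module k Q'] [IsScalarTower k A Q']
    (f : P →ₗ[A] Q) (g : P' →ₗ[A] Q') : e k f g = TB10.ee k f g := by
  have hset : {h : P →ₗ[A] Q' | ∃ (α : Q →ₗ[A] Q') (β : P →ₗ[A] P'), h = α ∘ₗ f + g ∘ₗ β} =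
      (LinearMap.range (TB10.Phi k f g) : Set (P →ₗ[A] Q')) := by
    ext h
    constructor
    · rintro ⟨α, β, rfl⟩
      exact ⟨(α, β), rfl⟩
    · rintro ⟨⟨α, β⟩, rfl⟩
      exact ⟨α, β, rfl⟩
  rw [e, TB10.ee, hset, Submodule.span_eq]

/-- rigidity of a direct sum gives the vanishing of the four spaces -/
theorem e0_of_rigid {A P Q P' Q' : Type u} [Ring A] [AddCommGroup P] [Module A P] [AddCommGroup Q]
    [Module A Q] [AddCommGroup P'] [Module A P'] [AddCommGroup Q'] [Module A Q']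
    (f : P →ₗ[A] Q) (g : P' →ₗ[A] Q') (h : TB10.Rigid (f.prodMap g)) :
    E0 f f ∧ E0 f g ∧ E0 g f ∧ E0 g g := by
  refine ⟨fun t => ?_, fun t => ?_, fun t => ?_, fun t => ?_⟩
  · obtain ⟨α, β, hαβ⟩ := h (LinearMap.inl A Q Q' ∘ₗ t ∘ₗ LinearMap.fst A P P')
    refine ⟨LinearMap.fst A Q Q' ∘ₗ α ∘ₗ LinearMap.inl A Q Q', LinearMap.fst A P P' ∘ₗ β ∘ₗ LinearMap.inl A P P', ?_⟩
    ext p
    have h1 := congrArg Prod.fst (LinearMap.congr_fun hαβ (p, (0 : P')))
    simpa using h1
  · obtain ⟨α, β, hαβ⟩ := h (LinearMap.inr A Q Q' ∘ₗ t ∘ₗ LinearMap.fst A P P')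
    refine ⟨LinearMap.snd A Q Q' ∘ₗ α ∘ₗ LinearMap.inl A Q Q', LinearMap.snd A P P' ∘ₗ β ∘ₗ LinearMap.inl A P P', ?_⟩
    ext p
    have h1 := congrArg Prod.snd (LinearMap.congr_fun hαβ (p, (0 : P')))
    simpa using h1
  · obtain ⟨α, β, hαβ⟩ := h (LinearMap.inl A Q Q' ∘ₗ t ∘ₗ LinearMap.snd A P P')
    refine ⟨LinearMap.fst A Q Q' ∘ₗ α ∘ₗ LinearMap.inr A Q Q', LinearMap.fst A P P' ∘ₗ β ∘ₗ LinearMap.inr A P P', ?_⟩
    ext p
    have h1 := congrArg Prod.fst (LinearMap.congr_fun hαβ ((0 : P), p))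
    simpa using h1
  · obtain ⟨α, β, hαβ⟩ := h (LinearMap.inr A Q Q' ∘ₗ t ∘ₗ LinearMap.snd A P P')
    refine ⟨LinearMap.snd A Q Q' ∘ₗ α ∘ₗ LinearMap.inr A Q Q', LinearMap.snd A P P' ∘ₗ β ∘ₗ LinearMap.inr A P P', ?_⟩
    ext p
    have h1 := congrArg Prod.snd (LinearMap.congr_fun hαβ ((0 : P), p))
    simpa using h1

theorem result (k : Type u) [Field k] [Infinite k] (A : Type u) [Ring A] [Algebra k A] [Module.Finite k A]
    (P : Type u) [AddCommGroup P] [Module A P] [Module k P] [IsScalarTower k A P]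
    [Module.Finite A P] [Module.Projective A P]
    (Q : Type u) [AddCommGroup Q] [Module A Q] [Module k Q] [IsScalarTower k A Q]
    [Module.Finite A Q] [Module.Projective A Q]
    (P' : Type u) [AddCommGroup P'] [Module A P'] [Module k P'] [IsScalarTower k A P']
    [Module.Finite A P'] [Module.Projective A P']
    (Q' : Type u) [AddCommGroup Q'] [Module A Q'] [Module k Q'] [IsScalarTower k A Q']
    [Module.Finite A Q'] [Module.Projective A Q']
    (f : P →ₗ[A] Q) (g : P' →ₗ[A] Q') (hf : E0 f f) (hg : E0 g g)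
    (hfin : FewBricks k A (2 ^ (e k f g + e k g f) * (finrank k Q + finrank k Q'))) :
    Linked A P Q P' Q' (2 ^ (e k f g + e k g f)) := by
  have : Module.Finite k P := Module.Finite.trans A P
  have : Module.Finite k Q := Module.Finite.trans A Q
  have : Module.Finite k P' := Module.Finite.trans A P'
  have : Module.Finite k Q' := Module.Finite.trans A Q'
  obtain ⟨L, hL⟩ := TB10.exists_cov (k := k) (A := A)
    (2 ^ (TB10.ee k f g + TB10.ee k g f) * (finrank k Q + finrank k Q')) (by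
      intro d hd h
      rw [← e_eq, ← e_eq] at hd
      exact hfin d hd ((TB10.infBricks_iff d).mpr h))
  obtain ⟨l, hl, hc, ⟨a, ha, hax, hay⟩, ⟨b, hb, hbx, hby⟩⟩ := TB10.chain_exists f g hf hg L hL
  refine ⟨l.map fun a => ⟨a.x, a.y, a.h⟩, ?_, ?_, ⟨⟨a.x, a.y, a.h⟩, ?_, hax, hay⟩,
    ⟨⟨b.x, b.y, b.h⟩, ?_, hbx, hby⟩⟩
  · rw [List.length_map, e_eq, e_eq]
    exact hl
  · rw [List.isChain_map]
    refine hc.imp fun a b hab => ?_
    obtain ⟨h1, h2, h3, h4⟩ := e0_of_rigid a.h b.h hab.1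
    exact ⟨h1, h2, h3, h4, hab.2⟩
  · rw [List.head?_map, ha]
    rfl
  · rw [List.getLast?_map, hb]
    rfl

end Pool.Agent.Results.MP_424b8c_al.RationalPlanes
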