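import Pool.Agent.LibTB4.F3

/-!
# MP_424b8c_al : the second tau-Brauer-Thrall conjecture in small rank

`Md k B` is the type of `B`-modules which are finite-dimensional over `k`.

Stability: idempotents `e j` of `B` and integers `c j` give `θ(U) = ∑ c j * dim e_j U` for submodules `U` of a module.
`X` is `θ`-semistable if `θ(X) = 0` and `θ(U) ≤ 0` for all submodules `U`, and `θ`-stable if `X ≠ 0`, `θ(X) = 0` and
`θ(U) < 0` for all submodules `U ≠ 0, X`.

The theorem: `k` is algebraically closed, `A` a finite-dimensional `k`-algebra, `A'` a quotient algebra of `A`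
(`π` onto), `B` a `k`-algebra isomorphic to `e A' e`, `e = φ 1` an idempotent of `A'` (`φ` is `k`-linear, multiplicative,
injective, and its image is `e A' e`).  Suppose that there are up to isomorphism exactly `m` `θ`-stable `B`-modules, and
`m = 2`, or `m = 3` and `dim_k B/[B,B] ≤ s` where `B` has `s` pairwise nonisomorphic simple modules.
If there are infinitely many `θ`-semistable bricks over `B`, then `A` has infinitely many bricks of one and the same
dimension `d`.  (With an explicit bound for `d` if `m = 2` and `θ = 0`.  If `θ = 0` then all modules are semistable and the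
stable modules are the simple modules.)
-/

set_option autoImplicit false

universe u

namespace Pool.Agent.Results.MP_424b8c_al.SmallRank

open Module

/-- a `B`-module, finite-dimensional over `k` -/
structure Md (k B : Type u) [Field k] [Ring B] [Algebra k B] where
  X : Type u
  [ag : AddCommGroup X]
  [ck : Module k X]
  [cb : Module B X]
  [st : IsScalarTower k B X]
  [fin : Module.Finite k X]

attribute [instance] Md.ag Md.ck Md.cb Md.st Md.fin

variable {k B : Type u} [Field k] [Ring B] [Algebra k B]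

/-- `X` is a brick: `X ≠ 0` and every nonzero endomorphism is bijective -/
def Brick (X : Md k B) : Prop :=
  Nontrivial X.X ∧ ∀ h : X.X →ₗ[B] X.X, h ≠ 0 → Function.Bijective h

/-- `X` and `Y` are isomorphic `B`-modules -/
def Iso (X Y : Md k B) : Prop := Nonempty (X.X ≃ₗ[B] Y.X)

/-- there are infinitely many pairwise nonisomorphic bricks with the property `P` -/
def Inf (P : Md k B → Prop) : Prop :=
  ∃ X : ℕ → Md k B, (∀ n, Brick (X n) ∧ P (X n)) ∧ ∀ m n, m ≠ n → ¬ Iso (X m) (X n)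

/-- `θ(U) = ∑ c j * dim e_j U` for a submodule `U` of `X` -/
noncomputable def th {r : ℕ} (e : Fin r → B) (c : Fin r → ℤ) (X : Md k B) (U : Submodule B X.X) : ℤ :=
  ∑ j, c j * (finrank k ((U.restrictScalars k).map (Algebra.lsmul k k X.X (e j))) : ℤ)

/-- `X` is `θ`-semistable -/
def Semi {r : ℕ} (e : Fin r → B) (c : Fin r → ℤ) (X : Md k B) : Prop :=
  th e c X ⊤ = 0 ∧ ∀ U, th e c X U ≤ 0

/-- `X` is `θ`-stable -/
def Stab {r : ℕ} (e : Fin r → B) (c : Fin r → ℤ) (X : Md k B) : Prop :=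
  Nontrivial X.X ∧ th e c X ⊤ = 0 ∧ ∀ U, U ≠ ⊥ → U ≠ ⊤ → th e c X U < 0

/-- up to isomorphism exactly `m` modules over `B` are `θ`-stable -/
def ExactlyStable (k : Type u) {B : Type u} [Field k] [Ring B] [Algebra k B] {r : ℕ} (e : Fin r → B)
    (c : Fin r → ℤ) (m : ℕ) : Prop :=
  ∃ S : Fin m → Md k B, (∀ i, Stab e c (S i)) ∧ (∀ i j, i ≠ j → ¬ Iso (S i) (S j)) ∧
    ∀ T : Md k B, Stab e c T → ∃ i, Iso T (S i)

/-- `π` is onto, and `φ` identifies `B` with the corner `e A' e`, `e = φ 1` -/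
def Corner {A A' : Type u} [Ring A] [Algebra k A] [Ring A'] [Algebra k A']
    (π : A →ₐ[k] A') (φ : B →ₗ[k] A') : Prop :=
  Function.Surjective π ∧ (∀ x y, φ (x * y) = φ x * φ y) ∧ Function.Injective φ ∧
    ∀ a : A', ∃ b : B, φ b = φ 1 * a * φ 1

/-- `dim_k B/[B,B]`, `[B,B]` the span of all `a b - b a` -/
noncomputable def dimHH (k B : Type u) [Field k] [Ring B] [Algebra k B] : ℕ :=
  finrank k (B ⧸ Submodule.span k {z : B | ∃ a b : B, z = a * b - b * a})

theorem simple_of_stab {r : ℕ} (e : Fin r → B) (c : Fin r → ℤ) (hc : ∀ j, c j = 0) (X : Md k B)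
    (h : Stab e c X) : IsSimpleModule B X.X := by
  have hnt := h.1
  have hth : ∀ U, th e c X U = 0 := by
    intro U
    simp [th, hc]
  haveI : IsSimpleOrder (Submodule B X.X) :=
    { exists_pair_ne := ⟨⊥, ⊤, bot_ne_top⟩
      eq_bot_or_eq_top := fun N => by
        by_contra hcon
        push Not at hcon
        have h3 := h.2.2 N hcon.1 hcon.2
        rw [hth] at h3
        exact lt_irrefl _ h3 }
  exact ⟨⟩

theorem stab_of_simple {r : ℕ} (e : Fin r → B) (c : Fin r → ℤ) (hc : ∀ j, c j = 0) (X : Md k B)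
    [IsSimpleModule B X.X] : Stab e c X := by
  have hth : ∀ U, th e c X U = 0 := by
    intro U
    simp [th, hc]
  refine ⟨IsSimpleModule.nontrivial B X.X, hth _, fun U h0 h1 => ?_⟩
  rcases eq_bot_or_eq_top U with h | h
  · exact absurd h h0
  · exact absurd h h1

/-- a representation as a module -/
def ofRep {d : ℕ} (ρ : B →ₐ[k] Module.End k (Fin d → k)) : Md k B := { X := TB10.Vm ρ }

theorem exists_rep' (X : Md k B) : ∃ r : TB10.Rp k B, Nonempty (X.X ≃ₗ[B] TB10.Vm r.2) := by
  obtain ⟨ρ, h⟩ := TB10.exists_rep (k := k) (A := B) X.X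
  exact ⟨⟨_, ρ⟩, h⟩

theorem one (k : Type u) [Field k] [IsAlgClosed k] (B : Type u) [Ring B] [Algebra k B]
    [Module.Finite k B] (r : ℕ) (e : Fin r → B) (he : ∀ j, e j * e j = e j) (c : Fin r → ℤ)
    (m : ℕ) (hS : ExactlyStable k e c m)
    (s : ℕ) (T : Fin s → Type u) [∀ i, AddCommGroup (T i)] [∀ i, Module B (T i)]
    [∀ i, IsSimpleModule B (T i)] (hT : ∀ i j, i ≠ j → IsEmpty (T i ≃ₗ[B] T j))
    (hm : m = 2 ∨ m = 3 ∧ dimHH k B ≤ s)
    (hinf : Inf (fun X : Md k B => Semi e c X)) : ∃ d, TB10.InfBricks k B d := by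
  have : Infinite k := IsAlgClosed.instInfinite
  obtain ⟨S, hS, hne, hall⟩ := hS
  obtain ⟨n, V, hVs, hVn, hVa⟩ := TB4.exists_simples k B
  have hinst : ∀ i, IsSimpleModule B (TB10.Vm (V i).2) := hVs
  obtain ⟨p, hp⟩ := TB3.exists_bas (k := k) (fun i => TB10.Vm (V i).2) hVn hVa
  obtain ⟨x, hx⟩ := TB4.exists_classM hp e he c
  have hW := fun i => exists_rep' (S i)
  choose W hW using hW
  refine TB4.red_class k B p hp x m W ?_ ?_ ?_ ?_ ?_
  · intro i
    obtain ⟨f⟩ := hW i
    exact ((hx (S i).X).2.1 (hS i)).congr f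
  · intro i j hij
    refine ⟨fun f => hne i j hij ?_⟩
    obtain ⟨f1⟩ := hW i
    obtain ⟨f2⟩ := hW j
    exact ⟨(f1.trans f).trans f2.symm⟩
  · intro Y _ _ _ _ _ hY
    obtain ⟨i, ⟨f⟩⟩ := hall { X := Y } ((hx Y).2.2 hY)
    obtain ⟨g⟩ := hW i
    exact ⟨i, ⟨f.trans g⟩⟩
  · rcases hm with h | ⟨h, h'⟩
    · exact Or.inl h
    · refine Or.inr ⟨h, fun hfin => TB3.nse_of_hh0 hp hfin (h'.trans ?_)⟩
      have hc := fun i => hVa (T i)
      choose g hg using hc
      have hinj : Function.Injective g := by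
        intro i j hij
        by_contra hcon
        obtain ⟨f1⟩ := hg i
        obtain ⟨f2⟩ := hg j
        rw [hij] at f1
        exact (hT i j hcon).false (f1.trans f2.symm)
      simpa using Fintype.card_le_of_injective g hinj
  · obtain ⟨X, hX, hXn⟩ := hinf
    have hY := fun i => exists_rep' (X i)
    choose Y hY using hY
    refine ⟨Y, fun i => ?_, fun i j hij => ⟨fun f => hXn i j (ne_of_lt hij) ?_⟩⟩
    · obtain ⟨f⟩ := hY i
      exact ⟨TB10.brick_congr f (hX i).1, TB3.Ws_congr f ((hx (X i).X).1.1 (hX i).2)⟩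
    · obtain ⟨f1⟩ := hY i
      obtain ⟨f2⟩ := hY j
      exact ⟨(f1.trans f).trans f2.symm⟩

theorem toInf {A : Type u} [Ring A] [Algebra k A] {d : ℕ} (h : TB10.InfBricks k A d) :
    Inf (fun X : Md k A => finrank k X.X = d) := by
  obtain ⟨X, hX, hXn⟩ := h
  refine ⟨fun n => ofRep (X n), fun n => ⟨hX n, ?_⟩, fun m n hmn => ?_⟩
  · change finrank k (Fin d → k) = d
    simp
  · rintro ⟨f⟩
    rcases lt_or_gt_of_ne hmn with h | h
    · exact (hXn m n h).false f
    · exact (hXn n m h).false f.symm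

theorem result (k : Type u) [Field k] [IsAlgClosed k]
    -- the algebra `A`, a quotient `A'`, and a corner `B ≅ e A' e` of `A'`
    (A A' B : Type u) [Ring A] [Algebra k A] [Module.Finite k A] [Ring A'] [Algebra k A']
    [Ring B] [Algebra k B] (π : A →ₐ[k] A') (φ : B →ₗ[k] A') (hcor : Corner π φ)
    -- the stability condition `θ`, with exactly `m` stable modules
    (r : ℕ) (e : Fin r → B) (he : ∀ j, e j * e j = e j) (c : Fin r → ℤ)
    (m : ℕ) (hS : ExactlyStable k e c m)
    -- `s` pairwise nonisomorphic simple modules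
    (s : ℕ) (T : Fin s → Type u) [∀ i, AddCommGroup (T i)] [∀ i, Module B (T i)]
    [∀ i, IsSimpleModule B (T i)] (hT : ∀ i j, i ≠ j → IsEmpty (T i ≃ₗ[B] T j))
    -- `m = 2`, or `m = 3` and `dim B/[B,B] ≤ s`
    (hm : m = 2 ∨ m = 3 ∧ dimHH k B ≤ s)
    -- infinitely many semistable bricks over `B`
    (hinf : Inf (fun X : Md k B => Semi e c X)) :
    -- then `A` has infinitely many bricks of one dimension `d`
    ∃ d, (m = 2 → (∀ j, c j = 0) → d ≤ finrank k A * (2 ^ finrank k B * finrank k B)) ∧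
      Inf (fun X : Md k A => finrank k X.X = d) := by
  obtain ⟨hπ, hmul, hinj, hcorner⟩ := hcor
  haveI : Module.Finite k A' := Module.Finite.of_surjective π.toLinearMap hπ
  haveI : Module.Finite k B := Module.Finite.of_injective φ hinj
  by_cases h0 : m = 2 ∧ ∀ j, c j = 0
  · obtain ⟨rfl, hc⟩ := h0
    obtain ⟨S, hS, hne, hall⟩ := hS
    have h1 := simple_of_stab e c hc (S 0) (hS 0)
    have h2 := simple_of_stab e c hc (S 1) (hS 1)
    have hall' : ∀ (T : Type u) [AddCommGroup T] [Module B T] [IsSimpleModule B T],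
        Nonempty (T ≃ₗ[B] (S 0).X) ∨ Nonempty (T ≃ₗ[B] (S 1).X) := by
      intro T _ _ _
      obtain ⟨n, V, hVs, hVn, hVa⟩ := TB4.exists_simples k B
      obtain ⟨i, ⟨f⟩⟩ := hVa T
      have : IsSimpleModule B (ofRep (V i).2).X := hVs i
      obtain ⟨j, ⟨g⟩⟩ := hall (ofRep (V i).2) (stab_of_simple e c hc _)
      fin_cases j
      · exact Or.inl ⟨f.trans g⟩
      · exact Or.inr ⟨f.trans g⟩
    obtain ⟨d, hd, h⟩ := TB10.two_simples_corner k A A' B π hπ φ hmul hinj hcorner (S 0).X (S 1).X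
      ⟨fun f => hne 0 1 (by decide) ⟨f⟩⟩ hall' (by
        obtain ⟨X, hX, hXn⟩ := hinf
        have hY := fun i => exists_rep' (X i)
        choose Y hY using hY
        refine ⟨Y, fun i => ?_, fun i j hij => ⟨fun f => hXn i j (ne_of_lt hij) ?_⟩⟩
        · obtain ⟨f⟩ := hY i
          exact TB10.brick_congr f (hX i).1
        · obtain ⟨f1⟩ := hY i
          obtain ⟨f2⟩ := hY j
          exact ⟨(f1.trans f).trans f2.symm⟩)
    exact ⟨d, fun _ _ => hd, toInf h⟩
  · obtain ⟨d, h⟩ := one k B r e he c m hS s T hT hm hinf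
    obtain ⟨d', -, h'⟩ := TB10.infBricks_of_corner φ hmul hinj hcorner d h
    exact ⟨d', fun h1 h2 => absurd ⟨h1, h2⟩ h0, toInf (TB10.infBricks_of_quot π hπ d' h')⟩

end Pool.Agent.Results.MP_424b8c_al.SmallRank
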