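import Pool.Agent.LibTB20.S5

/-!
# MP_424b8c_al : bricks over symmetric algebras

`k` is an infinite field, `A` a finite-dimensional `k`-algebra and `B` a quotient algebra of `A`
which is symmetric (`B = A` if `A` itself is symmetric); `P_1, ..., P_n` are pairwise nonisomorphic
finitely generated projective `B`-modules with local endomorphism rings (e.g. all indecomposable
projectives).

The theorem: either `A` has infinitely many bricks of one and the same dimension, or there is
`c > 0` such that the Cartan form `∑ x_i x_j dim Hom(P_i,P_j)` is at least `c ∑ x_i ^ 2`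
(so the Cartan matrix is positive definite) and the endomorphism algebra, in the homotopy
category, of every complex `P^a → P^b` of dimension at least `c |b - a|^2`.
-/

set_option autoImplicit false

universe u

namespace Pool.Agent.Results.MP_424b8c_al.Symmetric

open Module

/-- the representation `ρ` on `k^d` is a brick: `d > 0` and every nonzero endomorphism is bijective -/
def BrickRep {k A : Type u} [Field k] [Ring A] [Algebra k A] {d : ℕ}
    (ρ : A →ₐ[k] Module.End k (Fin d → k)) : Prop :=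
  0 < d ∧ ∀ T : (Fin d → k) →ₗ[k] (Fin d → k), (∀ a v, T (ρ a v) = ρ a (T v)) → T ≠ 0 →
    Function.Bijective T

/-- the representations `ρ` on `k^d` and `σ` on `k^e` are isomorphic -/
def IsoRep {k A : Type u} [Field k] [Ring A] [Algebra k A] {d e : ℕ}
    (ρ : A →ₐ[k] Module.End k (Fin d → k)) (σ : A →ₐ[k] Module.End k (Fin e → k)) : Prop :=
  ∃ T : (Fin d → k) ≃ₗ[k] (Fin e → k), ∀ a v, T (ρ a v) = σ a (T v)

/-- there are infinitely many pairwise nonisomorphic bricks of dimension `d` over `A` -/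
def InfBricks (k A : Type u) [Field k] [Ring A] [Algebra k A] (d : ℕ) : Prop :=
  ∃ X : ℕ → (A →ₐ[k] Module.End k (Fin d → k)),
    (∀ n, BrickRep (X n)) ∧ ∀ m n, m ≠ n → ¬ IsoRep (X m) (X n)

/-- `lam` is a symmetrizing form of the algebra `B` -/
def Symm {k B : Type u} [Field k] [Ring B] [Algebra k B] (lam : B →ₗ[k] k) : Prop :=
  (∀ x y, lam (x * y) = lam (y * x)) ∧ ∀ x, (∀ y, lam (x * y) = 0) → x = 0

/-- the modules `P i` are pairwise nonisomorphic and have local endomorphism rings -/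
def Indec (B : Type u) [Ring B] {n : ℕ} (P : Fin n → Type u) [∀ i, AddCommGroup (P i)]
    [∀ i, Module B (P i)] : Prop :=
  (∀ i, IsLocalRing (Module.End B (P i))) ∧ ∀ i j, i ≠ j → ¬ Nonempty (P i ≃ₗ[B] P j)

/-- the Cartan form `∑ x_i x_j dim Hom(P_i,P_j)` -/
noncomputable def cartan (k B : Type u) [Field k] [Ring B] [Algebra k B] {n : ℕ}
    (P : Fin n → Type u) [∀ i, AddCommGroup (P i)] [∀ i, Module B (P i)] [∀ i, Module k (P i)]
    [∀ i, IsScalarTower k B (P i)] (x : Fin n → ℝ) : ℝ :=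
  ∑ i, ∑ j, x i * x j * (finrank k (P i →ₗ[B] P j) : ℝ)

/-- the module `P_1^{a_1} ⊕ ... ⊕ P_n^{a_n}` -/
def Pw {n : ℕ} (P : Fin n → Type u) (a : Fin n → ℕ) : Type u :=
  (i : Fin n) → Fin (a i) → P i

instance Pw.group {n : ℕ} (P : Fin n → Type u) (a : Fin n → ℕ) [∀ i, AddCommGroup (P i)] :
    AddCommGroup (Pw P a) :=
  (inferInstance : AddCommGroup ((i : Fin n) → Fin (a i) → P i))

instance Pw.module (R : Type u) [Ring R] {n : ℕ} (P : Fin n → Type u) (a : Fin n → ℕ)
    [∀ i, AddCommGroup (P i)] [∀ i, Module R (P i)] : Module R (Pw P a) :=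
  (inferInstance : Module R ((i : Fin n) → Fin (a i) → P i))

instance Pw.tower (k B : Type u) [Field k] [Ring B] [Algebra k B] {n : ℕ} (P : Fin n → Type u)
    (a : Fin n → ℕ) [∀ i, AddCommGroup (P i)] [∀ i, Module k (P i)] [∀ i, Module B (P i)]
    [∀ i, IsScalarTower k B (P i)] : IsScalarTower k B (Pw P a) :=
  (inferInstance : IsScalarTower k B ((i : Fin n) → Fin (a i) → P i))

section
variable (k : Type u) [Field k] {B : Type u} [Ring B] [Algebra k B]
variable {P : Type u} [AddCommGroup P] [Module B P] [Module k P] [IsScalarTower k B P]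
variable {Q : Type u} [AddCommGroup Q] [Module B Q] [Module k Q] [IsScalarTower k B Q]

/-- the dimension of the space of the endomorphisms of the complex `f : P → Q` up to homotopy:
the dimension of the space of the pairs `(α, β)`, `α ∈ End Q`, `β ∈ End P`, with `α f = f β`,
minus the dimension of its subspace of the pairs `(f g, g f)`, `g : Q → P`
(`Set.finrank` is the dimension of the span) -/
noncomputable def dimEnd (f : P →ₗ[B] Q) : ℕ :=
  Set.finrank k {z : (Q →ₗ[B] Q) × (P →ₗ[B] P) | z.1 ∘ₗ f = f ∘ₗ z.2} -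
    Set.finrank k {z : (Q →ₗ[B] Q) × (P →ₗ[B] P) | ∃ g : Q →ₗ[B] P, z = (f ∘ₗ g, g ∘ₗ f)}

theorem dimEnd_eq (f : P →ₗ[B] Q) : dimEnd k f = TB20.dimEnd k f := by
  have h1 : {z : (Q →ₗ[B] Q) × (P →ₗ[B] P) | z.1 ∘ₗ f = f ∘ₗ z.2} =
      (TB20.Z k f : Set ((Q →ₗ[B] Q) × (P →ₗ[B] P))) := rfl
  have h2 : {z : (Q →ₗ[B] Q) × (P →ₗ[B] P) | ∃ g : Q →ₗ[B] P, z = (f ∘ₗ g, g ∘ₗ f)} =
      (TB20.N k f : Set ((Q →ₗ[B] Q) × (P →ₗ[B] P))) := by
    ext z
    constructor
    · rintro ⟨g, rfl⟩
      exact ⟨g, rfl⟩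
    · rintro ⟨g, rfl⟩
      exact ⟨g, rfl⟩
  rw [dimEnd, TB20.dimEnd, h1, h2, Set.finrank, Set.finrank, Submodule.span_eq,
    Submodule.span_eq]

end

/-- the Cartan form is at least `c ∑ x_i ^ 2`, and the endomorphism algebra (up to homotopy) of
every complex `f : P^a → P^b` has dimension at least `c ∑ (b_i - a_i) ^ 2` -/
def Growth (k B : Type u) [Field k] [Ring B] [Algebra k B] {n : ℕ}
    (P : Fin n → Type u) [∀ i, AddCommGroup (P i)] [∀ i, Module B (P i)] [∀ i, Module k (P i)]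
    [∀ i, IsScalarTower k B (P i)] (c : ℝ) : Prop :=
  (∀ x : Fin n → ℝ, c * ∑ i, x i ^ 2 ≤ cartan k B P x) ∧
    ∀ (a b : Fin n → ℕ) (f : Pw P a →ₗ[B] Pw P b),
      c * ∑ i, ((b i : ℝ) - a i) ^ 2 ≤ dimEnd k f

theorem result (k : Type u) [Field k] [Infinite k] (A : Type u) [Ring A] [Algebra k A]
    [Module.Finite k A]
    -- the symmetric quotient algebra `B` of `A`
    (B : Type u) [Ring B] [Algebra k B] (π : A →ₐ[k] B) (hπ : Function.Surjective π)
    (lam : B →ₗ[k] k) (hlam : Symm lam)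
    -- pairwise nonisomorphic indecomposable projective `B`-modules
    (n : ℕ) (P : Fin n → Type u) [∀ i, AddCommGroup (P i)] [∀ i, Module B (P i)]
    [∀ i, Module k (P i)] [∀ i, IsScalarTower k B (P i)] [∀ i, Module.Finite B (P i)]
    [∀ i, Module.Projective B (P i)] (hP : Indec B P) :
    (∃ d, InfBricks k A d) ∨ ∃ c : ℝ, 0 < c ∧ Growth k B P c := by
  by_cases h : ∃ d, TB10.InfBricks k A d
  · obtain ⟨d, hd⟩ := h
    exact .inl ⟨d, (TB10.infBricks_iff d).mpr hd⟩
  · push Not at h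
    obtain ⟨c, h1, h2, h3⟩ := TB20.symm_cartan π hπ lam hlam.1 hlam.2 P hP.1 hP.2 h
    refine .inr ⟨c, h1, h2, fun a b f => ?_⟩
    rw [dimEnd_eq]
    exact h3 a b f

end Pool.Agent.Results.MP_424b8c_al.Symmetric
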